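import Mathlib

set_option autoImplicit false

open Complex Set Filter
open scoped Real Topology

namespace Pool.Agent.Results.MP_9ed304_an.Spine

/-- The principal `2n`-th root. -/
noncomputable def rt (n : ℕ) (a : ℂ) : ℂ := a ^ (1 / (2 * n) : ℂ)

/-- The map `r_{n,a}`. -/
noncomputable def r (n : ℕ) (a z : ℂ) : ℂ := z ^ n + a / z ^ n + (rt n a - 2 * rt 1 a)

/-- The boundedness locus. -/
def M (n : ℕ) : Set ℂ :=
  {a | a ≠ 0 ∧ (∀ k, (r n a)^[k] (rt n a - 4 * rt 1 a) ≠ 0) ∧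
    Bornology.IsBounded (range fun k => (r n a)^[k] (rt n a - 4 * rt 1 a))}

/-- The limiting cardioid. -/
def Sinf : Set ℂ := (fun θ : ℝ => (1 + exp (θ * I)) ^ 2 / 16) '' Icc 0 (2 * π)

lemma escape (f : ℂ → ℂ) (ρ : ℝ) (h : ∀ z, ρ ≤ ‖z‖ → ‖z‖ + 1 ≤ ‖f z‖) (z : ℂ) (j : ℕ)
    (hz : ρ ≤ ‖f^[j] z‖) : ¬ Bornology.IsBounded (range fun k => f^[k] z) := by
  intro hb
  obtain ⟨C, hC⟩ := hb.exists_norm_le
  have key : ∀ k : ℕ, ‖f^[j] z‖ + k ≤ ‖f^[k + j] z‖ := by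
    intro k
    induction k with
    | zero => simp
    | succ k ih =>
      rw [Nat.succ_add, Function.iterate_succ_apply']
      have := h _ (hz.trans ((le_add_of_nonneg_right (Nat.cast_nonneg k)).trans ih))
      push_cast
      linarith
  obtain ⟨k, hk⟩ := exists_nat_gt C
  have := hC _ ⟨k + j, rfl⟩
  have := key k
  have := norm_nonneg (f^[j] z)
  simp only at *
  linarith

lemma rt_pow (n : ℕ) (hn : n ≠ 0) (a : ℂ) : rt n a ^ (2 * n) = a := by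
  have := cpow_nat_inv_pow a (n := 2 * n) (by omega)
  rw [rt, one_div]
  simpa using this

lemma r_ge (n : ℕ) (a z : ℂ) :
    ‖z‖ ^ n - ‖a‖ / ‖z‖ ^ n - (‖rt n a‖ + 2 * ‖rt 1 a‖) ≤ ‖r n a z‖ ∧
    ‖a‖ / ‖z‖ ^ n - ‖z‖ ^ n - (‖rt n a‖ + 2 * ‖rt 1 a‖) ≤ ‖r n a z‖ := by
  have h1 : ‖rt n a - 2 * rt 1 a‖ ≤ ‖rt n a‖ + 2 * ‖rt 1 a‖ := by
    simpa using norm_sub_le (rt n a) (2 * rt 1 a)
  have h2 := norm_sub_le (r n a z) (rt n a - 2 * rt 1 a)
  have e : r n a z - (rt n a - 2 * rt 1 a) = z ^ n + a / z ^ n := by simp [r]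
  rw [e] at h2
  have h3 := norm_sub_le (z ^ n + a / z ^ n) (a / z ^ n)
  have h4 := norm_sub_le (z ^ n + a / z ^ n) (z ^ n)
  simp only [add_sub_cancel_right, add_sub_cancel_left, norm_div, norm_pow] at h3 h4
  constructor <;> linarith

lemma unit_mem (e : ℂ) (he : ‖e‖ = 1) : (1 + e) ^ 2 / 16 ∈ Sinf := by
  have h : exp (arg e * I) = e := by simpa [he] using norm_mul_exp_arg_mul_I e
  have h1 := neg_pi_lt_arg e
  have h2 := arg_le_pi e
  have hp := Real.pi_pos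
  by_cases h0 : 0 ≤ arg e
  · exact ⟨arg e, ⟨h0, by linarith⟩, by simp only [h]⟩
  · refine ⟨arg e + 2 * π, ⟨by linarith, by linarith⟩, ?_⟩
    have : exp (((arg e + 2 * π : ℝ) : ℂ) * I) = e := by
      push_cast
      rw [add_mul, exp_add, h, exp_two_pi_mul_I, mul_one]
    simp only [this]

lemma big (n : ℕ) (hn : 3 ≤ n) (a : ℂ) (ha : 1 ≤ ‖a‖) : a ∉ M n := by
  rintro ⟨-, -, hb⟩
  have h1 : ‖rt 1 a‖ ^ 2 = ‖a‖ := by rw [← norm_pow]; simpa using congrArg norm (rt_pow 1 one_ne_zero a)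
  have h2 : ‖rt n a‖ ^ (2 * n) = ‖a‖ := by rw [← norm_pow, rt_pow n (by omega)]
  set s := ‖rt 1 a‖ with hs
  have s0 : 0 ≤ s := norm_nonneg _
  have s1 : 1 ≤ s := by nlinarith
  have h3 : ‖rt n a‖ ≤ s := by
    by_contra hh
    push Not at hh
    have : ‖rt n a‖ ^ 2 ≤ ‖rt n a‖ ^ (2 * n) := pow_le_pow_right₀ (by linarith) (by omega)
    nlinarith
  refine escape (r n a) (3 * s) (fun z hz => ?_) _ 0 ?_ hb
  · have g := (r_ge n a z).1
    have z1 : 1 ≤ ‖z‖ := by linarith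
    have g1 : ‖z‖ ^ 3 ≤ ‖z‖ ^ n := pow_le_pow_right₀ z1 hn
    have g2 : ‖a‖ / ‖z‖ ^ n ≤ ‖a‖ := div_le_self (norm_nonneg _) (one_le_pow₀ z1)
    have g3 : 9 * s ^ 2 ≤ ‖z‖ ^ 2 := by nlinarith
    have g4 : 9 * s ^ 2 * ‖z‖ ≤ ‖z‖ ^ 3 := by nlinarith
    have g5 : s ^ 2 ≤ s ^ 2 * ‖z‖ := by nlinarith
    have g6 : ‖z‖ ≤ s ^ 2 * ‖z‖ := by nlinarith
    linarith
  · have := norm_sub_norm_le (4 * rt 1 a) (rt n a)
    rw [norm_sub_rev] at this
    simp only [norm_mul, norm_ofNat] at this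
    simp only [Function.iterate_zero, id]
    linarith

lemma near (u w : ℂ) (η : ℝ) (h0 : 0 < η) (h1 : η ≤ 1) (hu : ‖u - 1‖ ≤ η)
    (hl : 1 / (1 + η) < ‖u - 4 * w‖) (hr : ‖u - 4 * w‖ < 1 + η) :
    ∃ x ∈ Sinf, dist (w ^ 2) x < η := by
  set v := u - 4 * w with hv
  have v0 : 0 < ‖v‖ := lt_trans (by positivity) hl
  have v0' : (‖v‖ : ℂ) ≠ 0 := by exact_mod_cast v0.ne'
  set e := -v / ‖v‖ with he
  have e1 : ‖e‖ = 1 := by simp [he, v0.ne']
  refine ⟨_, unit_mem e e1, ?_⟩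
  have d1 : ‖-v - e‖ ≤ η := by
    have : -v - e = e * ((‖v‖ - 1 : ℝ) : ℂ) := by
      push_cast
      rw [he]
      field_simp
      ring
    rw [this, norm_mul, e1, one_mul, norm_real, Real.norm_eq_abs, abs_le]
    rw [div_lt_iff₀ (by positivity)] at hl
    constructor <;> nlinarith
  set d := (u - 1) + (-v - e) with hd
  have d2 : ‖d‖ ≤ 2 * η := (norm_add_le _ _).trans (by linarith)
  have e2 : w ^ 2 - (1 + e) ^ 2 / 16 = d * (2 * (1 + e) + d) / 16 := by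
    rw [hd, hv]
    ring
  have d3 : ‖2 * (1 + e) + d‖ ≤ 6 := by
    have := norm_add_le (2 * (1 + e)) d
    have h2 := norm_add_le 1 e
    simp only [norm_mul, norm_ofNat, norm_one] at this h2
    linarith
  rw [dist_eq_norm, e2, norm_div, norm_mul]
  have : ‖d‖ * ‖2 * (1 + e) + d‖ ≤ 2 * η * 6 := by gcongr
  simp only [norm_ofNat]
  linarith

theorem result (ε : ℝ) (hε : 0 < ε) :
    ∃ N ≥ 3, ∀ n ≥ N, M n ⊆ Metric.thickening ε Sinf := by
  set η := min ε 1 with hη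
  have h0 : 0 < η := lt_min hε one_pos
  have h1 : η ≤ 1 := min_le_right _ _
  have h2 : η ≤ ε := min_le_left _ _
  have t1 := (tendsto_pow_atTop_atTop_of_one_lt (by linarith : 1 < 1 + η)).eventually_ge_atTop
    (14 / η)
  have t2 := (tendsto_natCast_atTop_atTop (R := ℝ)).eventually_ge_atTop ((-Real.log η + π) / η)
  obtain ⟨N, hN⟩ := eventually_atTop.1 (t1.and t2)
  refine ⟨max N 3, le_max_right _ _, fun n hn a ha => ?_⟩
  have n3 : 3 ≤ n := (le_max_right _ _).trans hn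
  obtain ⟨p1, p2⟩ := hN n ((le_max_left _ _).trans hn)
  rw [Metric.mem_thickening_iff]
  by_cases a1 : 1 ≤ ‖a‖
  · exact absurd ha (big n n3 a a1)
  push Not at a1
  by_cases a2 : ‖a‖ < η
  · exact ⟨_, unit_mem (-1) (by simp), by simpa using a2.trans_le h2⟩
  push Not at a2
  obtain ⟨a0, hne, hb⟩ := ha
  have w2 : rt 1 a ^ 2 = a := by simpa using rt_pow 1 one_ne_zero a
  have w1 : ‖rt 1 a‖ ≤ 1 := by
    have : ‖rt 1 a‖ ^ 2 = ‖a‖ := by rw [← norm_pow, w2]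
    nlinarith [norm_nonneg (rt 1 a)]
  have npos : (0 : ℝ) < n := by exact_mod_cast (by omega : 0 < n)
  have hu : ‖rt n a - 1‖ ≤ η := by
    have l1 : ‖log a‖ ≤ -Real.log η + π := by
      have := norm_le_abs_re_add_abs_im (log a)
      rw [log_re, log_im, abs_of_nonpos (Real.log_nonpos (norm_nonneg _) a1.le)] at this
      have := Real.log_le_log h0 a2
      have := abs_arg_le_pi a
      linarith
    have l2 : ‖log a * (1 / (2 * n))‖ ≤ η / 2 := by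
      rw [div_le_iff₀ h0] at p2
      simp only [norm_mul, norm_div, norm_one, norm_ofNat, norm_natCast]
      rw [mul_one_div, div_le_iff₀ (by positivity)]
      nlinarith
    rw [rt, cpow_def_of_ne_zero a0]
    have := norm_exp_sub_one_le (x := log a * (1 / (2 * n))) (by linarith)
    linarith
  have u2 : ‖rt n a‖ ≤ 2 := by
    have := norm_sub_norm_le (rt n a) 1
    simp only [norm_one] at this
    linarith
  rw [div_le_iff₀ h0] at p1
  have esc : ∀ z, 1 + η ≤ ‖z‖ → ‖z‖ + 1 ≤ ‖r n a z‖ := by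
    intro z hz
    have g := (r_ge n a z).1
    have z1 : 1 ≤ ‖z‖ := by linarith
    have g2 : ‖a‖ / ‖z‖ ^ n ≤ ‖a‖ := div_le_self (norm_nonneg _) (one_le_pow₀ z1)
    obtain ⟨m, rfl⟩ : ∃ m, n = m + 1 := ⟨n - 1, by omega⟩
    have g3 : (1 + η) ^ m ≤ ‖z‖ ^ m := by gcongr
    have g4 : 7 ≤ (1 + η) ^ m := by
      rw [pow_succ] at p1
      have : 0 ≤ (1 + η) ^ m := by positivity
      have : (1 + η) * η ≤ 2 := by nlinarith
      nlinarith
    have g5 : 7 * ‖z‖ ≤ ‖z‖ ^ (m + 1) := by rw [pow_succ]; nlinarith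
    linarith
  by_cases c1 : 1 + η ≤ ‖rt n a - 4 * rt 1 a‖
  · exact absurd hb (escape _ _ esc _ 0 c1)
  by_cases c2 : ‖rt n a - 4 * rt 1 a‖ ≤ 1 / (1 + η)
  · refine absurd hb (escape _ _ esc _ 1 ?_)
    have v0 : 0 < ‖rt n a - 4 * rt 1 a‖ := norm_pos_iff.2 (hne 0)
    set v := rt n a - 4 * rt 1 a
    have g := (r_ge n a v).2
    have g1 : ‖v‖ ^ n ≤ (1 / (1 + η)) ^ n := by gcongr
    have g2 : ‖v‖ ^ n ≤ 1 := pow_le_one₀ v0.le (c2.trans (by rw [div_le_one (by linarith)]; linarith))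
    have g3 : 14 ≤ ‖a‖ / ‖v‖ ^ n := by
      rw [le_div_iff₀ (by positivity)]
      rw [one_div, inv_pow, le_inv_comm₀ (by positivity) (by positivity), inv_eq_one_div,
        le_div_iff₀ (by positivity)] at g1
      have : 0 < ‖v‖ ^ n := by positivity
      nlinarith
    simp only [Function.iterate_one]
    linarith
  obtain ⟨x, hx, hd⟩ := near (rt n a) (rt 1 a) η h0 h1 hu (not_le.1 c2) (not_le.1 c1)
  exact ⟨x, hx, by rw [w2] at hd; linarith⟩

end Pool.Agent.Results.MP_9ed304_an.Spine
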